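import Pool.Agent.R490.GPb
import Pool.Agent.R490.GPc

set_option autoImplicit false

/-!
# Pairs of primes with a given sum
-/

namespace Pool.Agent.L5helper16.PQ

open Finset Filter
open Pool.Agent.W123.RP Pool.Agent.H373R2.T7 Pool.Agent.W123.RU Pool.Agent.TH464.PO Pool.Agent.TH464.PW
open Pool.Agent.Y879.AP Pool.Agent.R490.P3b Pool.Agent.R490.LFa Pool.Agent.R490.LFb Pool.Agent.R490.LFc
open Pool.Agent.R490.LGa Pool.Agent.R490.LGb
open Pool.Agent.R490.LGe Pool.Agent.R490.GPa Pool.Agent.R490.GPb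

/-- a multiple of the primorial minus `s` has the same small prime factors as `s` -/
lemma dvd_wp_sub (y s p : ℕ) (hp : p ∈ pz y) : p ∣ (Wp y - 1) * s ↔ p ∣ s := by
  have hpp := (mem_pz.1 hp).2
  have h1 : p ∣ Wp y := dvd_Wp hpp (mem_pz.1 hp).1
  constructor
  · intro h
    rcases (Nat.Prime.dvd_mul hpp).1 h with h2 | h2
    · exfalso
      have h3 : p ∣ Wp y - (Wp y - 1) := Nat.dvd_sub h1 h2
      have h4 : Wp y - (Wp y - 1) = 1 := by
        have := Wp_pos y
        omega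
      rw [h4] at h3
      exact hpp.one_lt.ne' (Nat.dvd_one.1 h3)
    · exact h2
  · exact fun h => h.mul_left _

lemma tw_wp_sub (y s : ℕ) : tw 0 y ((Wp y - 1) * s) = tw 0 y s := by
  classical
  unfold tw
  apply prod_congr rfl
  intro p hp
  by_cases h : p ∣ s
  · rw [if_pos ⟨(mem_pz.1 hp).2.pos, (dvd_wp_sub y s p hp).2 h⟩, if_pos ⟨(mem_pz.1 hp).2.pos, h⟩]
  · rw [if_neg (fun h2 => h ((dvd_wp_sub y s p hp).1 h2.2)), if_neg (fun h2 => h h2.2)]

open Classical in
/-- pairs of primes with a given sum -/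
theorem sums_le : ∃ (C : ℝ) (P0 : ℕ), 0 < C ∧ ∀ P : ℕ, P0 ≤ P → ∃ y : ℕ, ∀ s : ℕ, 1 ≤ s →
    (((Pr P).filter (fun p => p < s ∧ (s - p).Prime)).card : ℝ) ≤ C * (P / Real.log P ^ 2) * tw 0 y s := by
  obtain ⟨C0, x0, hC0, H⟩ := cnt_pairF
  obtain ⟨cz, Cv, hcz, hCv, hV⟩ := Vz_bounds
  obtain ⟨r, hr⟩ : ∃ r : ℕ, r = 16 * (C0 * C0) := ⟨_, rfl⟩
  have hr16 : 16 ≤ r := by
    have := Nat.mul_le_mul hC0 hC0
    omega
  have hr2 : 2 ≤ r := by omega
  have hr0 : (0 : ℝ) < r := by exact_mod_cast (by omega : 0 < r)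
  have ev1 := Pool.Agent.Y879.GL.level_ok r hr2
  have ev2 := Pool.Agent.R490.Mean.y_ge r hr2 (x0 + 2)
  have ev3 := logpow_rpow 2 2 (1 / 2) (by norm_num) (by norm_num)
  obtain ⟨P0, hP0⟩ := eventually_atTop.1 ((ev1.and (ev2.and ev3)).and (eventually_ge_atTop 2))
  refine ⟨2 * (4 * r ^ 2 * Cv ^ 2) + 2, P0, by positivity, ?_⟩
  intro P hP
  obtain ⟨⟨⟨g1, g2, g3, g4, g5⟩, hy, h3⟩, hP2⟩ := hP0 P hP
  obtain ⟨y, hyd⟩ : ∃ y, y = ⌊(P : ℝ) ^ (1 / (r : ℝ))⌋₊ := ⟨_, rfl⟩
  rw [← hyd] at g1 g2 g3 g4 hy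
  refine ⟨y, ?_⟩
  intro s hs
  have hPr : (0 : ℝ) < P := by exact_mod_cast (by omega : 0 < P)
  have hP1 : (1 : ℝ) ≤ P := by exact_mod_cast (by omega : 1 ≤ P)
  have hlog : 0 < Real.log P := by linarith
  have hyP : y ^ (16 * (C0 * C0)) ≤ P := by
    have a1 : (y : ℝ) ≤ (P : ℝ) ^ (1 / (r : ℝ)) := by rw [hyd]; exact Nat.floor_le (by positivity)
    have a2 : (y : ℝ) ^ r ≤ P := by
      calc (y : ℝ) ^ r ≤ ((P : ℝ) ^ (1 / (r : ℝ))) ^ r := pow_le_pow_left₀ (Nat.cast_nonneg _) a1 r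
        _ = P := by
            rw [← Real.rpow_natCast, ← Real.rpow_mul hPr.le, one_div_mul_cancel hr0.ne', Real.rpow_one]
    rw [← hr]
    exact_mod_cast a2
  obtain ⟨R, hR⟩ : ∃ R : ℕ, R = (Wp y - 1) * s := ⟨_, rfl⟩
  obtain ⟨α, hα⟩ : ∃ α : ℕ → ℕ, α = fun _ => 1 := ⟨_, rfl⟩
  obtain ⟨β, hβ⟩ : ∃ β : ℕ → ℕ, β = fun j => j * R := ⟨_, rfl⟩
  have h1 := H C0 le_rfl P y (by omega) hyP α β 0 1 0 P (by rw [hα]; exact Nat.coprime_one_left _)
    (by rw [hα]; exact Nat.coprime_one_left _) ∅ ∅ (by simp) (by simp) (disjoint_empty_left _)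
  rw [wt_empty, mul_one, mul_one] at h1
  have h2 := (abs_le.1 h1).2
  have hV2 : Vq (QP α β 0 1) y ≤ VW 0 y ^ 2 * (tw 0 y 1 * tw 0 y 1 * tw 0 y R) := by
    apply V2_le
    · intro p _ _ h
      rw [hα] at h
      exact h
    · intro p _ _ h
      rw [hα] at h
      exact h
    · intro p _ _ h
      rw [hα, hβ] at h
      push_cast at h
      have e : (1 : ℤ) * (1 * (R : ℤ)) - 1 * (0 * (R : ℤ)) = R := by ring
      rw [e] at h
      exact_mod_cast h
  rw [hR, tw_wp_sub] at hV2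
  have htw1 : tw 0 y 1 = 1 := by
    unfold tw
    apply prod_eq_one
    intro p hp
    rw [if_neg]
    rintro ⟨_, h⟩
    exact (mem_pz.1 hp).2.one_lt.ne' (Nat.dvd_one.1 h)
  have hVW : VW 0 y = Vz y := by
    unfold VW Vz
    apply prod_congr rfl
    intro p hp
    rw [if_pos (mem_pz.1 hp).2.pos]
  rw [htw1, one_mul, one_mul, hVW] at hV2
  have hVz0 : 0 ≤ Vz y := by
    unfold Vz
    exact prod_nonneg fun p hp => (one_sub_pos (mem_pz.1 hp).2).1.le
  have hVz : Vz y ≤ 2 * r * Cv / Real.log P := by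
    refine (hV y (by omega)).2.trans ?_
    rw [div_le_div_iff₀ (by linarith) hlog]
    have b1 : Real.log P ≤ Real.log y * (2 * r) := by
      rw [div_le_iff₀ (by positivity)] at g2
      exact g2
    nlinarith [mul_le_mul_of_nonneg_left b1 hCv.le]
  have htw := one_le_tw 0 y s
  have hVV : Vq (QP α β 0 1) y ≤ 4 * r ^ 2 * Cv ^ 2 / Real.log P ^ 2 * tw 0 y s := by
    refine hV2.trans ?_
    apply mul_le_mul_of_nonneg_right _ (by linarith)
    calc Vz y ^ 2 ≤ (2 * r * Cv / Real.log P) ^ 2 := pow_le_pow_left₀ hVz0 hVz 2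
      _ = _ := by rw [div_pow]; ring
  have hcard : (((Pr P).filter (fun p => p < s ∧ (s - p).Prime)).card : ℝ) ≤
      NF α β y 0 1 0 P ∅ ∅ + (y + y) := by
    have hsub : (Pr P).filter (fun p => p < s ∧ (s - p).Prime) ⊆
        (Ioc 0 (0 + P)).filter (fun m : ℕ => Sf (QP α β 0 1) y m ∧
          (∏ p ∈ (∅ : Finset ℕ), p ∣ α 0 * m + β 0) ∧ (∏ p ∈ (∅ : Finset ℕ), p ∣ α 1 * m + β 1)) ∪
          (Icc 1 y ∪ (Icc 1 y).image (fun q => s - q)) := by
      intro p hp
      rw [mem_filter, mem_Pr] at hp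
      obtain ⟨⟨a1, a2⟩, a3, a4⟩ := hp
      rw [mem_union, mem_union]
      by_cases hpy : p ≤ y
      · right; left
        rw [mem_Icc]
        exact ⟨a2.pos, hpy⟩
      · by_cases hqy : s - p ≤ y
        · right; right
          rw [mem_image]
          refine ⟨s - p, ?_, by omega⟩
          rw [mem_Icc]
          exact ⟨a4.pos, hqy⟩
        · left
          rw [mem_filter, mem_Ioc]
          refine ⟨⟨a2.pos, by omega⟩, ?_, by simp, by simp⟩
          intro l hl hq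
          have hl' := mem_pz.1 hl
          rcases hq with hq | hq
          · unfold QF at hq
            rw [hα, hβ] at hq
            have e : 1 * p + 0 * R = p := by ring
            simp only [e] at hq
            have := (Nat.prime_dvd_prime_iff_eq hl'.2 a2).1 hq
            omega
          · unfold QF at hq
            rw [hα, hβ] at hq
            have e : 1 * p + 1 * R = p + R := by ring
            simp only [e] at hq
            have hlW : l ∣ Wp y := dvd_Wp hl'.2 hl'.1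
            have h5 : l ∣ Wp y * s := hlW.mul_right s
            have h6 : Wp y * s = (s - p) + (p + R) := by
              rw [hR]
              have hW := Wp_pos y
              obtain ⟨V, hV'⟩ : ∃ V, Wp y = V + 1 := ⟨Wp y - 1, by omega⟩
              rw [hV', Nat.add_sub_cancel]
              have : (V + 1) * s = V * s + s := by ring
              omega
            rw [h6] at h5
            have h7 : l ∣ s - p := (Nat.dvd_add_left hq).1 h5
            have := (Nat.prime_dvd_prime_iff_eq hl'.2 a4).1 h7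
            omega
    have h4 := (card_le_card hsub).trans (card_union_le _ _)
    have h4' := h4.trans (Nat.add_le_add_left (card_union_le _ _) _)
    have h4'' := h4'.trans (Nat.add_le_add_left (Nat.add_le_add_left card_image_le _) _)
    rw [Nat.card_Icc, Nat.add_sub_cancel] at h4''
    unfold NF
    exact_mod_cast h4''
  have hb : (1 / 2 : ℝ) ^ C0 ≤ 1 := pow_le_one₀ (by norm_num) (by norm_num)
  have hq0 : 0 ≤ (P : ℝ) * Vq (QP α β 0 1) y := mul_nonneg hPr.le (Vq_nonneg _ _)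
  have h5 : (1 / 2 : ℝ) ^ C0 * ((P : ℝ) * Vq (QP α β 0 1) y) ≤ (P : ℝ) * Vq (QP α β 0 1) y :=
    mul_le_of_le_one_left hq0 hb
  have h6 : (P : ℝ) * Vq (QP α β 0 1) y ≤ P * (4 * r ^ 2 * Cv ^ 2 / Real.log P ^ 2 * tw 0 y s) :=
    mul_le_mul_of_nonneg_left hVV hPr.le
  have hs' : √(P : ℝ) = (P : ℝ) ^ (1 / 2 : ℝ) := Real.sqrt_eq_rpow _
  have h7 : (y : ℝ) ≤ √(P : ℝ) := by
    rw [hs']
    calc (y : ℝ) ≤ (P : ℝ) ^ (1 / (r : ℝ)) := by rw [hyd]; exact Nat.floor_le (by positivity)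
      _ ≤ (P : ℝ) ^ (1 / 2 : ℝ) := by
          apply Real.rpow_le_rpow_of_exponent_le hP1
          apply one_div_le_one_div_of_le (by norm_num)
          exact_mod_cast hr2
  have h8 : 2 * √(P : ℝ) ≤ P / Real.log P ^ 2 := by
    rw [le_div_iff₀ (by positivity)]
    rw [← hs'] at h3
    have e : √(P : ℝ) * √(P : ℝ) = P := Real.mul_self_sqrt hPr.le
    calc 2 * √(P : ℝ) * Real.log P ^ 2 = √(P : ℝ) * (2 * Real.log P ^ 2) := by ring
      _ ≤ √(P : ℝ) * √(P : ℝ) := mul_le_mul_of_nonneg_left h3 (Real.sqrt_nonneg _)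
      _ = P := e
  have h9 : P / Real.log P ^ 2 ≤ P / Real.log P ^ 2 * tw 0 y s := le_mul_of_one_le_right (by positivity) htw
  have h10 : 0 ≤ √(P : ℝ) := Real.sqrt_nonneg _
  have e10 : (2 * (4 * (r : ℝ) ^ 2 * Cv ^ 2) + 2) * (P / Real.log P ^ 2) * tw 0 y s =
      2 * (P * (4 * r ^ 2 * Cv ^ 2 / Real.log P ^ 2 * tw 0 y s)) + 2 * (P / Real.log P ^ 2 * tw 0 y s) := by ring
  rw [e10]
  linarith

/-- the double sum over the primes, by the sum -/
lemma sum_sums (F : ℕ → ℝ) (hF : ∀ s, 0 ≤ F s) (P : ℕ) :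
    ∑ p ∈ Pr P, ∑ p' ∈ Pr P, F (p + p') ≤
      ∑ s ∈ Icc 1 (2 * P), F s * (((Pr P).filter (fun p => p < s ∧ (s - p).Prime)).card : ℝ) := by
  classical
  have h1 : ∀ p ∈ Pr P, ∑ p' ∈ Pr P, F (p + p') ≤
      ∑ s ∈ Icc 1 (2 * P), (if p < s ∧ (s - p).Prime then F s else 0) := by
    intro p hp
    rw [← sum_filter, ← sum_image (f := F) (g := fun p' => p + p') (s := Pr P)]
    · apply sum_le_sum_of_subset_of_nonneg
      · intro s hs
        rw [mem_image] at hs
        obtain ⟨p', hp', rfl⟩ := hs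
        rw [mem_Pr] at hp hp'
        rw [mem_filter, mem_Icc]
        have e : p + p' - p = p' := by omega
        rw [e]
        have := hp'.2.pos
        exact ⟨by omega, by omega, hp'.2⟩
      · intro s _ _
        exact hF s
    · intro a _ b _ hab
      simp only at hab
      omega
  refine (sum_le_sum h1).trans ?_
  rw [sum_comm]
  apply sum_le_sum
  intro s _
  rw [← sum_filter, sum_const, nsmul_eq_mul, mul_comm]

end Pool.Agent.L5helper16.PQ
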