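import Pool.Agent.L5helper16.PQ.A

set_option autoImplicit false

/-!
# Quadratic forms at the primes: the average of the excess
-/

namespace Pool.Agent.L5helper16.PQ

open Finset Filter
open Pool.Agent.W123.RP Pool.Agent.H373R2.T7 Pool.Agent.W123.RU Pool.Agent.TH464.PO Pool.Agent.TH464.PW
open Pool.Agent.Y879.AP Pool.Agent.R490.P3b Pool.Agent.R490.LFa Pool.Agent.R490.LFb Pool.Agent.R490.LFc
open Pool.Agent.R490.LGa Pool.Agent.R490.LGb
open Pool.Agent.R490.LGe Pool.Agent.R490.GPa Pool.Agent.R490.GPb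

lemma young1 (A b u : ℝ) (hA : 0 ≤ A) (hb : 0 ≤ b) (hu : 0 < u) :
    A ^ 2 * b ≤ 2 / 3 * u * A ^ 3 + b ^ 3 / (3 * u ^ 2) := by
  have h1 : 3 * (u * A) ^ 2 * b ≤ 2 * (u * A) ^ 3 + b ^ 3 := by
    have hz : 0 ≤ u * A := by positivity
    nlinarith [mul_nonneg (sq_nonneg (u * A - b)) (by linarith : 0 ≤ 2 * (u * A) + b)]
  have h2 : A ^ 2 * b = (3 * (u * A) ^ 2 * b) / (3 * u ^ 2) := by
    field_simp
  have h3 : 2 / 3 * u * A ^ 3 + b ^ 3 / (3 * u ^ 2) = (2 * (u * A) ^ 3 + b ^ 3) / (3 * u ^ 2) := by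
    field_simp
  rw [h2, h3]
  exact div_le_div_of_nonneg_right h1 (by positivity)

lemma young2 (A b u : ℝ) (hu : 0 < u) : A * b ≤ u / 2 * A ^ 2 + b ^ 2 / (2 * u) := by
  have h1 : 2 * (u * A) * b ≤ (u * A) ^ 2 + b ^ 2 := by nlinarith [sq_nonneg (u * A - b)]
  have h2 : A * b = (2 * (u * A) * b) / (2 * u) := by
    field_simp
  have h3 : u / 2 * A ^ 2 + b ^ 2 / (2 * u) = ((u * A) ^ 2 + b ^ 2) / (2 * u) := by
    field_simp
  rw [h2, h3]
  exact div_le_div_of_nonneg_right h1 (by positivity)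

/-- the cube root of `w` -/
noncomputable def cu (w : ℕ) : ℝ := (w : ℝ) ^ (1 / 3 : ℝ)

lemma cu_pow (w : ℕ) : cu w ^ 3 = w := by
  unfold cu
  rw [← Real.rpow_natCast, ← Real.rpow_mul (Nat.cast_nonneg _)]
  norm_num

lemma cu_one (w : ℕ) (hw : 1 ≤ w) : 1 ≤ cu w := by
  unfold cu
  exact Real.one_le_rpow (by exact_mod_cast hw) (by norm_num)

/-- the constant of the small primes -/
noncomputable def c0 : ℝ := (Vz 14)⁻¹

lemma c0_pos : 0 < c0 := by
  unfold c0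
  apply inv_pos.2
  unfold Vz
  exact prod_pos fun p hp => (one_sub_pos (mem_pz.1 hp).2).1

lemma cube14 (y N : ℕ) : ∑ d ∈ Icc 1 N, tw 14 y d ^ 3 ≤ 3 * N := by
  have h := sum_cube 14 y N le_rfl
  refine h.trans (le_of_eq ?_)
  push_cast
  ring

lemma sumA (w Y y P : ℕ) (hw : 14 ≤ w) :
    ∑ d ∈ Icc 1 P, (tw w Y d - 1) ^ 2 * tw 0 y d ≤ 20 * c0 * (P / cu w ^ 2) := by
  have hc := c0_pos
  have hu1 := cu_one w (by omega)
  have hu : 0 < cu w := by linarith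
  have hw0 : (0 : ℝ) < w := by exact_mod_cast (by omega : 0 < w)
  have h1 : ∀ d, (tw w Y d - 1) ^ 2 * tw 0 y d ≤
      c0 * (2 / 3 * cu w * (tw w Y d ^ 3 - 1) + tw 14 y d ^ 3 / (3 * cu w ^ 2)) := by
    intro d
    have ha1 := one_le_tw w Y d
    have hb1 := one_le_tw 14 y d
    have h2 : tw 0 y d ≤ c0 * tw 14 y d := tw_zero_le y d
    have h3 : (tw w Y d - 1) ^ 2 * tw 0 y d ≤ (tw w Y d - 1) ^ 2 * (c0 * tw 14 y d) :=
      mul_le_mul_of_nonneg_left h2 (sq_nonneg _)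
    have h4 := young1 (tw w Y d - 1) (tw 14 y d) (cu w) (by linarith) (by linarith) hu
    have h5 : (tw w Y d - 1) ^ 3 ≤ tw w Y d ^ 3 - 1 := by
      nlinarith [mul_nonneg (sub_nonneg.2 ha1) (by linarith : 0 ≤ tw w Y d)]
    have h6 : 2 / 3 * cu w * (tw w Y d - 1) ^ 3 ≤ 2 / 3 * cu w * (tw w Y d ^ 3 - 1) :=
      mul_le_mul_of_nonneg_left h5 (by positivity)
    calc (tw w Y d - 1) ^ 2 * tw 0 y d ≤ (tw w Y d - 1) ^ 2 * (c0 * tw 14 y d) := h3
      _ = c0 * ((tw w Y d - 1) ^ 2 * tw 14 y d) := by ring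
      _ ≤ _ := mul_le_mul_of_nonneg_left (by linarith) hc.le
  refine (sum_le_sum fun d _ => h1 d).trans ?_
  rw [← mul_sum, sum_add_distrib, ← mul_sum, ← sum_div]
  have h2 := sum_ex w Y P hw
  have h3 := cube14 y P
  have h4 : 2 / 3 * cu w * ∑ d ∈ Icc 1 P, (tw w Y d ^ 3 - 1) ≤ 2 / 3 * cu w * (28 * P / w) :=
    mul_le_mul_of_nonneg_left h2 (by positivity)
  have h5 : (∑ d ∈ Icc 1 P, tw 14 y d ^ 3) / (3 * cu w ^ 2) ≤ 3 * P / (3 * cu w ^ 2) :=
    div_le_div_of_nonneg_right h3 (by positivity)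
  have e1 : 2 / 3 * cu w * (28 * (P : ℝ) / w) = 56 / 3 * (P / cu w ^ 2) := by
    rw [← cu_pow w]
    field_simp
    ring
  have e2 : 3 * (P : ℝ) / (3 * cu w ^ 2) = P / cu w ^ 2 := by
    field_simp
  rw [e1] at h4
  rw [e2] at h5
  have h6 : 0 ≤ (P : ℝ) / cu w ^ 2 := by positivity
  calc c0 * (2 / 3 * cu w * ∑ d ∈ Icc 1 P, (tw w Y d ^ 3 - 1) + (∑ d ∈ Icc 1 P, tw 14 y d ^ 3) / (3 * cu w ^ 2)) ≤
      c0 * (20 * (P / cu w ^ 2)) := mul_le_mul_of_nonneg_left (by linarith) hc.le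
    _ = _ := by ring

/-- the factor of the sum -/
noncomputable def hs (b : ℤ) (w Y s : ℕ) : ℝ := if 0 < (s : ℤ) + b then tw w Y ((s : ℤ) + b).natAbs else 1

lemma one_le_hs (b : ℤ) (w Y s : ℕ) : 1 ≤ hs b w Y s := by
  unfold hs
  split_ifs
  · exact one_le_tw _ _ _
  · exact le_rfl

lemma sum_hs (b : ℤ) (w Y N : ℕ) (hw : 14 ≤ w) :
    ∑ s ∈ Icc 1 N, (hs b w Y s ^ 3 - 1) ≤ 28 * ((N : ℝ) + b.natAbs) / w := by
  classical
  have h1 : ∑ s ∈ Icc 1 N, (hs b w Y s ^ 3 - 1) =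
      ∑ s ∈ (Icc 1 N).filter (fun s : ℕ => 0 < (s : ℤ) + b), (tw w Y ((s : ℤ) + b).natAbs ^ 3 - 1) := by
    rw [sum_filter]
    apply sum_congr rfl
    intro s _
    unfold hs
    split_ifs
    · rfl
    · norm_num
  rw [h1, ← sum_image (f := fun n => tw w Y n ^ 3 - 1) (g := fun s : ℕ => ((s : ℤ) + b).natAbs)]
  · have h2 := sum_ex w Y (N + b.natAbs) hw
    rw [Nat.cast_add] at h2
    refine le_trans ?_ h2
    apply sum_le_sum_of_subset_of_nonneg
    · intro n hn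
      rw [mem_image] at hn
      obtain ⟨s, hs, rfl⟩ := hn
      rw [mem_filter, mem_Icc] at hs
      rw [mem_Icc]
      omega
    · intro n _ _
      exact cube_ge w Y n
  · intro x hx z hz hxz
    rw [mem_coe, mem_filter] at hx hz
    simp only at hxz
    omega

lemma sumB (b : ℤ) (w Y y P : ℕ) (hw : 14 ≤ w) (hP : b.natAbs ≤ P) :
    ∑ s ∈ Icc 1 (2 * P), hs b w Y s ^ 2 * tw 0 y s ≤ 10 * c0 * P := by
  have hc := c0_pos
  have hw0 : (14 : ℝ) ≤ w := by exact_mod_cast hw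
  have h1 : ∀ s, hs b w Y s ^ 2 * tw 0 y s ≤
      c0 * (2 / 3 * (hs b w Y s ^ 3 - 1) + 2 / 3 + 1 / 3 * tw 14 y s ^ 3) := by
    intro s
    have ha1 := one_le_hs b w Y s
    have hb1 := one_le_tw 14 y s
    have h2 : tw 0 y s ≤ c0 * tw 14 y s := tw_zero_le y s
    have h4 := young1 (hs b w Y s) (tw 14 y s) 1 (by linarith) (by linarith) one_pos
    calc hs b w Y s ^ 2 * tw 0 y s ≤ hs b w Y s ^ 2 * (c0 * tw 14 y s) :=
          mul_le_mul_of_nonneg_left h2 (sq_nonneg _)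
      _ = c0 * (hs b w Y s ^ 2 * tw 14 y s) := by ring
      _ ≤ _ := mul_le_mul_of_nonneg_left (by
          norm_num at h4
          linarith) hc.le
  refine (sum_le_sum fun s _ => h1 s).trans ?_
  rw [← mul_sum, sum_add_distrib, sum_add_distrib, ← mul_sum, ← mul_sum, sum_const, Nat.card_Icc,
    Nat.add_sub_cancel, nsmul_eq_mul]
  have h2 := sum_hs b w Y (2 * P) hw
  have h3 := cube14 y (2 * P)
  have h4 : 28 * (((2 * P : ℕ) : ℝ) + b.natAbs) / w ≤ 6 * P := by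
    rw [div_le_iff₀ (by linarith)]
    have hb : (b.natAbs : ℝ) ≤ P := by exact_mod_cast hP
    have hP0 : (0 : ℝ) ≤ P := Nat.cast_nonneg _
    push_cast
    nlinarith
  push_cast at h3 h4 ⊢
  rw [mul_assoc 10 c0, mul_left_comm]
  apply mul_le_mul_of_nonneg_left _ hc.le
  push_cast at h2
  have hP0 : (0 : ℝ) ≤ P := Nat.cast_nonneg _
  linarith

lemma sumC (b : ℤ) (w Y y P : ℕ) (hw : 14 ≤ w) (hP : b.natAbs ≤ P) :
    ∑ s ∈ Icc 1 (2 * P), (hs b w Y s - 1) * tw 0 y s ≤ 45 * c0 * (P / cu w) := by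
  have hc := c0_pos
  have hu1 := cu_one w (by omega)
  have hu : 0 < cu w := by linarith
  have hw0 : (0 : ℝ) < w := by exact_mod_cast (by omega : 0 < w)
  have h1 : ∀ s, (hs b w Y s - 1) * tw 0 y s ≤
      c0 * (cu w / 2 * (hs b w Y s ^ 3 - 1) + tw 14 y s ^ 3 / (2 * cu w)) := by
    intro s
    have ha1 := one_le_hs b w Y s
    have hb1 := one_le_tw 14 y s
    have h2 : tw 0 y s ≤ c0 * tw 14 y s := tw_zero_le y s
    have h4 := young2 (hs b w Y s - 1) (tw 14 y s) (cu w) hu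
    have h5 : (hs b w Y s - 1) ^ 2 ≤ hs b w Y s ^ 3 - 1 := by
      nlinarith [mul_nonneg (sub_nonneg.2 ha1) (by positivity : 0 ≤ hs b w Y s ^ 2 + 2)]
    have h6 : tw 14 y s ^ 2 ≤ tw 14 y s ^ 3 := pow_le_pow_right₀ hb1 (by norm_num)
    have h7 : cu w / 2 * (hs b w Y s - 1) ^ 2 ≤ cu w / 2 * (hs b w Y s ^ 3 - 1) :=
      mul_le_mul_of_nonneg_left h5 (by positivity)
    have h8 : tw 14 y s ^ 2 / (2 * cu w) ≤ tw 14 y s ^ 3 / (2 * cu w) :=
      div_le_div_of_nonneg_right h6 (by positivity)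
    calc (hs b w Y s - 1) * tw 0 y s ≤ (hs b w Y s - 1) * (c0 * tw 14 y s) :=
          mul_le_mul_of_nonneg_left h2 (by linarith)
      _ = c0 * ((hs b w Y s - 1) * tw 14 y s) := by ring
      _ ≤ _ := mul_le_mul_of_nonneg_left (by linarith) hc.le
  refine (sum_le_sum fun s _ => h1 s).trans ?_
  rw [← mul_sum, sum_add_distrib, ← mul_sum, ← sum_div]
  have h2 := sum_hs b w Y (2 * P) hw
  have h3 := cube14 y (2 * P)
  have hb : (b.natAbs : ℝ) ≤ P := by exact_mod_cast hP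
  have hP0 : (0 : ℝ) ≤ P := Nat.cast_nonneg _
  have h4 : cu w / 2 * ∑ s ∈ Icc 1 (2 * P), (hs b w Y s ^ 3 - 1) ≤ cu w / 2 * (84 * P / w) := by
    apply mul_le_mul_of_nonneg_left _ (by positivity)
    refine h2.trans ?_
    apply div_le_div_of_nonneg_right _ hw0.le
    push_cast
    linarith
  have h5 : (∑ s ∈ Icc 1 (2 * P), tw 14 y s ^ 3) / (2 * cu w) ≤ 6 * P / (2 * cu w) := by
    apply div_le_div_of_nonneg_right _ (by positivity)
    refine h3.trans (le_of_eq ?_)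
    push_cast
    ring
  have e1 : cu w / 2 * (84 * (P : ℝ) / w) = 42 * (P / cu w ^ 2) := by
    rw [← cu_pow w]
    field_simp
    ring
  have e2 : 6 * (P : ℝ) / (2 * cu w) = 3 * (P / cu w) := by
    field_simp
    ring
  have e3 : (P : ℝ) / cu w ^ 2 ≤ P / cu w := by
    apply div_le_div_of_nonneg_left hP0 hu
    nlinarith
  rw [e1] at h4
  rw [e2] at h5
  calc c0 * (cu w / 2 * ∑ s ∈ Icc 1 (2 * P), (hs b w Y s ^ 3 - 1) +
        (∑ s ∈ Icc 1 (2 * P), tw 14 y s ^ 3) / (2 * cu w)) ≤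
      c0 * (45 * (P / cu w)) := mul_le_mul_of_nonneg_left (by linarith) hc.le
    _ = _ := by ring

/-- the sums over all pairs of primes -/
theorem exc_primes (b : ℤ) : ∃ (C : ℝ) (P0 : ℕ), 0 < C ∧ ∀ P : ℕ, P0 ≤ P → ∀ w Y : ℕ, 14 ≤ w →
    ∑ p ∈ Pr P, ∑ p' ∈ Pr P, (if p = p' then 0 else tw w Y ((p : ℤ) - p').natAbs * hs b w Y (p + p') - 1) ≤
      C * (P / Real.log P) ^ 2 / cu w := by
  obtain ⟨C1, P1, hC1, h1⟩ := pairs_le
  obtain ⟨C2, P2, hC2, h2⟩ := sums_le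
  have hc := c0_pos
  refine ⟨c0 * (20 * C1 + 50 * C2), P1 + P2 + b.natAbs + 3, by positivity, ?_⟩
  intro P hP w Y hw
  have hu1 := cu_one w (by omega)
  have hu : 0 < cu w := by linarith
  obtain ⟨y1, hy1⟩ := h1 P (by omega)
  obtain ⟨y2, hy2⟩ := h2 P (by omega)
  have hP0 : (0 : ℝ) < P := by exact_mod_cast (by omega : 0 < P)
  have hlog : 0 < Real.log P := Real.log_pos (by exact_mod_cast (by omega : 1 < P))
  -- the splitting
  have hsplit : ∀ p ∈ Pr P, ∀ p' ∈ Pr P,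
      (if p = p' then 0 else tw w Y ((p : ℤ) - p').natAbs * hs b w Y (p + p') - 1) ≤
      cu w / 2 * (if p = p' then 0 else (tw w Y ((p : ℤ) - p').natAbs - 1) ^ 2) +
        (1 / (2 * cu w) * hs b w Y (p + p') ^ 2 + (hs b w Y (p + p') - 1)) := by
    intro p _ p' _
    have a1 := one_le_hs b w Y (p + p')
    split_ifs with h
    · have : 0 ≤ 1 / (2 * cu w) * hs b w Y (p + p') ^ 2 := by positivity
      linarith
    · have a2 := young2 (tw w Y ((p : ℤ) - p').natAbs - 1) (hs b w Y (p + p')) (cu w) hu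
      have a3 : hs b w Y (p + p') ^ 2 / (2 * cu w) = 1 / (2 * cu w) * hs b w Y (p + p') ^ 2 := by ring
      rw [a3] at a2
      linarith
  refine (sum_le_sum fun p hp => sum_le_sum fun p' hp' => hsplit p hp p' hp').trans ?_
  simp_rw [sum_add_distrib, ← mul_sum]
  -- the three sums
  have s1 : ∑ p ∈ Pr P, ∑ p' ∈ Pr P, (if p = p' then 0 else (tw w Y ((p : ℤ) - p').natAbs - 1) ^ 2) ≤
      2 * (C1 * (P / Real.log P ^ 2) * (20 * c0 * (P / cu w ^ 2))) := by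
    refine (sum_pairs (fun d => (tw w Y d - 1) ^ 2) (fun d => sq_nonneg _) P).trans ?_
    apply mul_le_mul_of_nonneg_left _ (by norm_num)
    calc _ ≤ ∑ d ∈ Icc 1 P, C1 * (P / Real.log P ^ 2) * ((tw w Y d - 1) ^ 2 * tw 0 y1 d) := by
          apply sum_le_sum
          intro d hd
          rw [mem_Icc] at hd
          have := mul_le_mul_of_nonneg_left (hy1 d hd.1) (sq_nonneg (tw w Y d - 1))
          refine this.trans (le_of_eq ?_)
          ring
      _ = C1 * (P / Real.log P ^ 2) * ∑ d ∈ Icc 1 P, (tw w Y d - 1) ^ 2 * tw 0 y1 d := by rw [mul_sum]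
      _ ≤ _ := mul_le_mul_of_nonneg_left (sumA w Y y1 P hw) (by positivity)
  have s2 : ∑ p ∈ Pr P, ∑ p' ∈ Pr P, hs b w Y (p + p') ^ 2 ≤
      C2 * (P / Real.log P ^ 2) * (10 * c0 * P) := by
    refine (sum_sums (fun s => hs b w Y s ^ 2) (fun s => sq_nonneg _) P).trans ?_
    calc _ ≤ ∑ s ∈ Icc 1 (2 * P), C2 * (P / Real.log P ^ 2) * (hs b w Y s ^ 2 * tw 0 y2 s) := by
          apply sum_le_sum
          intro s hs'
          rw [mem_Icc] at hs'
          have := mul_le_mul_of_nonneg_left (hy2 s hs'.1) (sq_nonneg (hs b w Y s))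
          refine this.trans (le_of_eq ?_)
          ring
      _ = C2 * (P / Real.log P ^ 2) * ∑ s ∈ Icc 1 (2 * P), hs b w Y s ^ 2 * tw 0 y2 s := by rw [mul_sum]
      _ ≤ _ := mul_le_mul_of_nonneg_left (sumB b w Y y2 P hw (by omega)) (by positivity)
  have s3 : ∑ p ∈ Pr P, ∑ p' ∈ Pr P, (hs b w Y (p + p') - 1) ≤
      C2 * (P / Real.log P ^ 2) * (45 * c0 * (P / cu w)) := by
    have hF : ∀ s, 0 ≤ hs b w Y s - 1 := fun s => by linarith [one_le_hs b w Y s]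
    refine (sum_sums (fun s => hs b w Y s - 1) hF P).trans ?_
    calc _ ≤ ∑ s ∈ Icc 1 (2 * P), C2 * (P / Real.log P ^ 2) * ((hs b w Y s - 1) * tw 0 y2 s) := by
          apply sum_le_sum
          intro s hs'
          rw [mem_Icc] at hs'
          have := mul_le_mul_of_nonneg_left (hy2 s hs'.1) (hF s)
          refine this.trans (le_of_eq ?_)
          ring
      _ = C2 * (P / Real.log P ^ 2) * ∑ s ∈ Icc 1 (2 * P), (hs b w Y s - 1) * tw 0 y2 s := by rw [mul_sum]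
      _ ≤ _ := mul_le_mul_of_nonneg_left (sumC b w Y y2 P hw (by omega)) (by positivity)
  have t1 := mul_le_mul_of_nonneg_left s1 (show 0 ≤ cu w / 2 by positivity)
  have t2 := mul_le_mul_of_nonneg_left s2 (show 0 ≤ 1 / (2 * cu w) by positivity)
  have e1 : cu w / 2 * (2 * (C1 * (P / Real.log P ^ 2) * (20 * c0 * (P / cu w ^ 2)))) =
      20 * C1 * c0 * ((P / Real.log P) ^ 2 / cu w) := by
    field_simp
  have e2 : 1 / (2 * cu w) * (C2 * (P / Real.log P ^ 2) * (10 * c0 * P)) =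
      5 * C2 * c0 * ((P / Real.log P) ^ 2 / cu w) := by
    field_simp
    ring
  have e3 : C2 * (P / Real.log P ^ 2) * (45 * c0 * (P / cu w)) = 45 * C2 * c0 * ((P / Real.log P) ^ 2 / cu w) := by
    field_simp
  rw [e1] at t1
  rw [e2] at t2
  rw [e3] at s3
  have e4 : c0 * (20 * C1 + 50 * C2) * (P / Real.log P) ^ 2 / cu w =
      20 * C1 * c0 * ((P / Real.log P) ^ 2 / cu w) + (5 * C2 * c0 * ((P / Real.log P) ^ 2 / cu w) +
        45 * C2 * c0 * ((P / Real.log P) ^ 2 / cu w)) := by ring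
  rw [e4]
  linarith

/-- the primes after the `j0`-th -/
noncomputable def qn (j0 j : ℕ) : ℕ := pn (j + j0)

lemma qn_prime (j0 j : ℕ) : (qn j0 j).Prime := pn_prime _

lemma qn_gt (j0 j : ℕ) (hj : 1 ≤ j) : j0 < qn j0 j := by
  unfold qn
  have := pn_ge (j + j0) (by omega)
  omega

lemma qn_inj {j0 j j' : ℕ} (hj : 1 ≤ j) (hj' : 1 ≤ j') (h : qn j0 j = qn j0 j') : j = j' := by
  have := pn_inj (by omega) (by omega) h
  omega

/-- the average of the excess -/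
theorem exc_q (b : ℤ) (j0 : ℕ) (hj0 : b.natAbs ≤ j0) : ∃ (C : ℝ) (K0 : ℕ), 0 < C ∧ ∀ K : ℕ, K0 ≤ K → ∀ w Y : ℕ,
    14 ≤ w → ∑ j ∈ Icc 1 K, ∑ j' ∈ Icc 1 K, (if j = j' then 0 else
      tw w Y ((qn j0 j : ℤ) - qn j0 j').natAbs * tw w Y ((qn j0 j : ℤ) + qn j0 j' + b).natAbs - 1) ≤
      C * (K : ℝ) ^ 2 / cu w := by
  classical
  obtain ⟨C, P0, hC, h⟩ := exc_primes b
  obtain ⟨X0, hX0, h3⟩ := Pool.Agent.H357R2.SI.pnt (1 / 2) (by norm_num)
  refine ⟨16 * C, P0 + X0 + j0 + 3, by positivity, ?_⟩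
  intro K hK w Y hw
  have hu1 := cu_one w (by omega)
  have hu : 0 < cu w := by linarith
  obtain ⟨P, hP⟩ : ∃ P, P = pn (K + j0) := ⟨_, rfl⟩
  have hPK : K + j0 ≤ P := by rw [hP]; exact pn_ge (K + j0) (by omega)
  have hmain := h P (by omega) w Y hw
  have hP0 : (0 : ℝ) < P := by exact_mod_cast (by omega : 0 < P)
  have hlog : 0 < Real.log P := Real.log_pos (by exact_mod_cast (by omega : 1 < P))
  -- the comparison of the sums
  have hmem : ∀ j ∈ Icc 1 K, qn j0 j ∈ Pr P := by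
    intro j hj
    rw [mem_Icc] at hj
    rw [mem_Pr, hP]
    refine ⟨?_, qn_prime _ _⟩
    exact Nat.nth_monotone Nat.infinite_setOfPred_prime (by omega)
  have hG : ∀ p p' : ℕ, 0 ≤ (if p = p' then 0 else
      tw w Y ((p : ℤ) - p').natAbs * hs b w Y (p + p') - 1) := by
    intro p p'
    split_ifs
    · exact le_rfl
    · have a1 := one_le_tw w Y ((p : ℤ) - p').natAbs
      have a2 := one_le_hs b w Y (p + p')
      nlinarith
  have hinj : Set.InjOn (qn j0) (Icc 1 K : Finset ℕ) := by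
    intro x hx z hz hxz
    rw [mem_coe, mem_Icc] at hx hz
    exact qn_inj hx.1 hz.1 hxz
  have hcomp : ∑ j ∈ Icc 1 K, ∑ j' ∈ Icc 1 K, (if j = j' then 0 else
      tw w Y ((qn j0 j : ℤ) - qn j0 j').natAbs * tw w Y ((qn j0 j : ℤ) + qn j0 j' + b).natAbs - 1) ≤
      ∑ p ∈ Pr P, ∑ p' ∈ Pr P, (if p = p' then 0 else
        tw w Y ((p : ℤ) - p').natAbs * hs b w Y (p + p') - 1) := by
    have e1 : ∑ j ∈ Icc 1 K, ∑ j' ∈ Icc 1 K, (if j = j' then 0 else
      tw w Y ((qn j0 j : ℤ) - qn j0 j').natAbs * tw w Y ((qn j0 j : ℤ) + qn j0 j' + b).natAbs - 1) =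
      ∑ p ∈ (Icc 1 K).image (qn j0), ∑ p' ∈ (Icc 1 K).image (qn j0), (if p = p' then 0 else
        tw w Y ((p : ℤ) - p').natAbs * hs b w Y (p + p') - 1) := by
      rw [sum_image hinj]
      apply sum_congr rfl
      intro j hj
      rw [sum_image hinj]
      apply sum_congr rfl
      intro j' hj'
      rw [mem_Icc] at hj hj'
      by_cases hjj : j = j'
      · rw [if_pos hjj, if_pos (by rw [hjj])]
      · rw [if_neg hjj, if_neg (fun h' => hjj (qn_inj hj.1 hj'.1 h'))]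
        have a1 := qn_gt j0 j hj.1
        have a2 := qn_gt j0 j' hj'.1
        have a3 : 0 < ((qn j0 j + qn j0 j' : ℕ) : ℤ) + b := by omega
        unfold hs
        rw [if_pos a3]
        push_cast
        rfl
    rw [e1]
    have hsub : (Icc 1 K).image (qn j0) ⊆ Pr P := by
      intro p hp
      rw [mem_image] at hp
      obtain ⟨j, hj, rfl⟩ := hp
      exact hmem j hj
    refine (sum_le_sum fun p _ => sum_le_sum_of_subset_of_nonneg hsub (fun p' _ _ => hG p p')).trans ?_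
    exact sum_le_sum_of_subset_of_nonneg hsub (fun p _ _ => sum_nonneg fun p' _ => hG p p')
  refine hcomp.trans (hmain.trans ?_)
  apply div_le_div_of_nonneg_right _ hu.le
  have h5 : (P : ℝ) / Real.log P ≤ 2 * (K + j0 : ℕ) := by
    have a1 := (h3 P (by omega)).1
    have a2 : Nat.primeCounting P = K + j0 := by
      rw [hP]
      unfold pn
      have : Nat.primeCounting (Nat.nth Nat.Prime (K + j0 - 1)) =
        Nat.count Nat.Prime (Nat.nth Nat.Prime (K + j0 - 1) + 1) := rfl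
      rw [this, Nat.count_succ, if_pos (Nat.prime_nth_prime _),
        Nat.count_nth_of_infinite Nat.infinite_setOfPred_prime]
      omega
    rw [a2] at a1
    have e : (1 - 1 / 2) * (P : ℝ) / Real.log P = (P / Real.log P) / 2 := by ring
    rw [e] at a1
    linarith
  have h6 : (2 : ℝ) * (K + j0 : ℕ) ≤ 4 * K := by
    have : K + j0 ≤ 2 * K := by omega
    have h7 : ((K + j0 : ℕ) : ℝ) ≤ ((2 * K : ℕ) : ℝ) := by exact_mod_cast this
    push_cast at h7 ⊢
    linarith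
  calc C * ((P : ℝ) / Real.log P) ^ 2 ≤ C * (4 * K) ^ 2 := by
        apply mul_le_mul_of_nonneg_left _ hC.le
        exact pow_le_pow_left₀ (by positivity) (h5.trans h6) 2
    _ = 16 * C * (K : ℝ) ^ 2 := by ring

end Pool.Agent.L5helper16.PQ
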