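import Pool.Agent.L5helper16.PQ.B
import Pool.Agent.R490.GPd
import Pool.Agent.R490.GPf

set_option autoImplicit false

/-!
# Quadratic forms at the primes: almost primes for almost all constant terms
-/

namespace Pool.Agent.L5helper16.PQ

open Finset Filter
open Pool.Agent.W123.RP Pool.Agent.H373R2.T7 Pool.Agent.W123.RU Pool.Agent.TH464.PO Pool.Agent.TH464.PW
open Pool.Agent.Y879.AP Pool.Agent.R490.P3b Pool.Agent.R490.LGa Pool.Agent.R490.LGb Pool.Agent.R490.LGd
open Pool.Agent.R490.LGe Pool.Agent.R490.GPa Pool.Agent.R490.GPb Pool.Agent.R490.GPc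

/-- the constant coefficient at the argument `m` -/
def Bz (b σ c : ℤ) (m : ℕ) : ℤ := σ * ((m : ℤ) ^ 2 + b * m) + c

lemma Bz_sub (b σ c : ℤ) (u v : ℕ) : Bz b σ c u - Bz b σ c v = σ * (((u : ℤ) - v) * ((u : ℤ) + v + b)) := by
  unfold Bz
  ring

lemma Bz_mod (b σ c : ℤ) (j p : ℕ) : Bz b σ c j ≡ Bz b σ c (j % p) [ZMOD p] := by
  have h1 : (j : ℤ) ≡ ((j % p : ℕ) : ℤ) [ZMOD p] := Int.natCast_modEq_iff.2 (Nat.mod_modEq j p).symm
  unfold Bz
  exact (((h1.pow 2).add (h1.mul_left b)).mul_left σ).add_right c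

lemma sigma_cases (σ : ℤ) (hσ : σ.natAbs = 1) : σ = 1 ∨ σ = -1 :=
  Int.natAbs_eq_natAbs_iff.1 (by simpa using hσ)

lemma dvd_sigma (σ x : ℤ) (hσ : σ.natAbs = 1) (p : ℤ) (h : p ∣ σ * x) : p ∣ x := by
  rcases sigma_cases σ hσ with rfl | rfl
  · simpa using h
  · have := (dvd_neg).2 h
    simpa using this

/-- the conditions at the argument `m` -/
def QQ (b σ c : ℤ) (n p m : ℕ) : Prop := p ∣ m ∨ (p : ℤ) ∣ ((1 : ℕ) : ℤ) * n + Bz b σ c m

/-- the admissible `n` -/
def AdmP (b c : ℤ) (n : ℕ) : Prop := ¬ (2 : ℤ) ∣ (n : ℤ) + 1 + b + c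

lemma QQ_per (b σ c : ℤ) (n p m : ℕ) : QQ b σ c n p m ↔ QQ b σ c n p (m % p) := by
  unfold QQ
  apply or_congr
  · exact (Nat.dvd_mod_iff dvd_rfl).symm
  · exact ((Bz_mod b σ c m p).add_left _).dvd_iff

lemma two_rootsZ (b σ c : ℤ) (hσ : σ.natAbs = 1) (n p : ℕ) (hp : p.Prime) (u v : ℕ)
    (hu : u < p) (hv : v < p) (huv : u ≠ v) (h1 : (p : ℤ) ∣ ((1 : ℕ) : ℤ) * n + Bz b σ c u)
    (h2 : (p : ℤ) ∣ ((1 : ℕ) : ℤ) * n + Bz b σ c v) : (p : ℤ) ∣ (u : ℤ) + v + b := by
  have h3 : (p : ℤ) ∣ σ * (((u : ℤ) - v) * ((u : ℤ) + v + b)) := by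
    have := dvd_sub h1 h2
    have e : ((1 : ℕ) : ℤ) * n + Bz b σ c u - (((1 : ℕ) : ℤ) * n + Bz b σ c v) =
      Bz b σ c u - Bz b σ c v := by ring
    rwa [e, Bz_sub] at this
  rcases (Nat.prime_iff_prime_int.1 hp).dvd_or_dvd (dvd_sigma σ _ hσ _ h3) with h5 | h5
  · exfalso
    have h6 : ((u : ℤ) - v).natAbs < p := by omega
    have h7 : (u : ℤ) - v = 0 := Int.eq_zero_of_dvd_of_natAbs_lt_natAbs h5 (by simpa using h6)
    omega
  · exact h5

lemma roots_le (b σ c : ℤ) (hσ : σ.natAbs = 1) (n p : ℕ) (hp : p.Prime) (S : Finset ℕ)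
    (hS : ∀ j ∈ S, j < p ∧ (p : ℤ) ∣ ((1 : ℕ) : ℤ) * n + Bz b σ c j) : S.card ≤ 2 := by
  by_contra hc
  push Not at hc
  obtain ⟨u, hu, v, hv, t, ht, huv, hut, hvt⟩ := Finset.two_lt_card.1 hc
  have e1 := two_rootsZ b σ c hσ n p hp u v (hS u hu).1 (hS v hv).1 huv (hS u hu).2 (hS v hv).2
  have e2 := two_rootsZ b σ c hσ n p hp u t (hS u hu).1 (hS t ht).1 hut (hS u hu).2 (hS t ht).2
  have e3 : (p : ℤ) ∣ (v : ℤ) - t := by
    have := dvd_sub e1 e2
    have e : (u : ℤ) + v + b - ((u : ℤ) + t + b) = (v : ℤ) - t := by ring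
    rwa [e] at this
  have h5 : ((v : ℤ) - t).natAbs < p := by
    have := (hS v hv).1
    have := (hS t ht).1
    omega
  have h7 : (v : ℤ) - t = 0 := Int.eq_zero_of_dvd_of_natAbs_lt_natAbs e3 (by simpa using h5)
  omega

lemma nu_le (b σ c : ℤ) (hσ : σ.natAbs = 1) (n p : ℕ) (hp : p.Prime) : nuB (QQ b σ c n) p ≤ 3 := by
  classical
  unfold nuB
  have hsub : (range p).filter (fun r => QQ b σ c n p r) ⊆
      insert 0 ((range p).filter (fun r => (p : ℤ) ∣ ((1 : ℕ) : ℤ) * n + Bz b σ c r)) := by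
    intro r hr
    rw [mem_filter, mem_range] at hr
    rw [mem_insert, mem_filter, mem_range]
    rcases hr.2 with h | h
    · left
      exact Nat.eq_zero_of_dvd_of_lt h hr.1
    · right
      exact ⟨hr.1, h⟩
  refine (card_le_card hsub).trans ((card_insert_le _ _).trans ?_)
  have := roots_le b σ c hσ n p hp ((range p).filter (fun r => (p : ℤ) ∣ ((1 : ℕ) : ℤ) * n + Bz b σ c r))
    (fun j hj => by
      rw [mem_filter, mem_range] at hj
      exact hj)
  omega

lemma nu_lt_of (Q : ℕ → ℕ → Prop) (p r : ℕ) (hr : r < p) (h : ¬ Q p r) : nuB Q p < p := by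
  classical
  unfold nuB
  have h1 : (range p).filter (fun r => Q p r) ⊆ (range p).erase r := by
    intro t ht
    rw [mem_filter] at ht
    rw [mem_erase]
    refine ⟨?_, ht.1⟩
    rintro rfl
    exact h ht.2
  have h2 := card_le_card h1
  rw [card_erase_of_mem (mem_range.2 hr), card_range] at h2
  omega

lemma nu_lt (b σ c : ℤ) (hσ : σ.natAbs = 1) (h3 : ¬ (3 : ℤ) ∣ b) (n : ℕ) (hn : AdmP b c n) (p : ℕ) (hp : p.Prime) :
    nuB (QQ b σ c n) p < p := by
  have hs := sigma_cases σ hσ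
  rcases Nat.lt_or_ge p 4 with h4 | h4
  · have h2 := hp.two_le
    interval_cases p
    · apply nu_lt_of _ _ 1 (by norm_num)
      rintro (h | h)
      · omega
      · apply hn
        unfold Bz at h
        push_cast at h
        rcases hs with rfl | rfl
        · ring_nf at h ⊢
          exact h
        · have e : (n : ℤ) + 1 + b + c = (1 * (n : ℤ) + (-1 * (1 ^ 2 + b * 1) + c)) + 2 * (1 + b) := by ring
          rw [e]
          exact dvd_add h (Dvd.intro _ rfl)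
    · by_cases h1 : QQ b σ c n 3 1
      · apply nu_lt_of _ _ 2 (by norm_num)
        intro h2'
        rcases h1 with h1 | h1
        · omega
        · rcases h2' with h2' | h2'
          · omega
          · apply h3
            have h5 := dvd_sub h2' h1
            have e : ((1 : ℕ) : ℤ) * n + Bz b σ c 2 - (((1 : ℕ) : ℤ) * n + Bz b σ c 1) = σ * (3 + b) := by
              unfold Bz
              push_cast
              ring
            rw [e] at h5
            have h6 := dvd_sigma σ _ hσ _ h5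
            push_cast at h6
            exact (dvd_add_right (dvd_refl (3 : ℤ))).1 h6
      · exact nu_lt_of _ _ 1 (by norm_num) h1
  · have := nu_le b σ c hσ n p hp
    omega

lemma per_QQ (b σ c : ℤ) (hσ : σ.natAbs = 1) (n : ℕ) : PerB (QQ b σ c n) 3 :=
  ⟨fun p j => QQ_per b σ c n p j, fun p hp => nu_le b σ c hσ n p hp⟩

/-- the counting of a periodic predicate -/
lemma per_card (S : ℕ → Prop) [DecidablePred S] (W : ℕ) (hS : ∀ m, S (m + W) ↔ S m) (M : ℕ) :
    ((Ioc 0 (W * M)).filter S).card = M * ((Ioc 0 W).filter S).card := by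
  have hS' : ∀ M m, S (m + W * M) ↔ S m := by
    intro M
    induction M with
    | zero => intro m; simp
    | succ M ih =>
      intro m
      have e : m + W * (M + 1) = (m + W * M) + W := by ring
      rw [e, hS, ih]
  induction M with
  | zero => simp
  | succ M ih =>
    have h1 : (Ioc 0 (W * (M + 1))).filter S =
        (Ioc 0 (W * M)).filter S ∪ ((Ioc 0 W).filter S).image (fun m => m + W * M) := by
      ext m
      have e : W * (M + 1) = W * M + W := by ring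
      rw [mem_union, mem_filter, mem_filter, mem_image, mem_Ioc, mem_Ioc, e]
      constructor
      · rintro ⟨⟨a1, a2⟩, a3⟩
        rcases Nat.lt_or_ge (W * M) m with h | h
        · right
          refine ⟨m - W * M, ?_, by omega⟩
          rw [mem_filter, mem_Ioc]
          refine ⟨by omega, ?_⟩
          rw [← hS' M (m - W * M), Nat.sub_add_cancel h.le]
          exact a3
        · left
          exact ⟨⟨a1, h⟩, a3⟩
      · rintro (⟨⟨a1, a2⟩, a3⟩ | ⟨t, ht, rfl⟩)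
        · exact ⟨⟨a1, by omega⟩, a3⟩
        · rw [mem_filter, mem_Ioc] at ht
          exact ⟨by omega, (hS' M t).2 ht.2⟩
    have h2 : Disjoint ((Ioc 0 (W * M)).filter S) (((Ioc 0 W).filter S).image (fun m => m + W * M)) := by
      rw [disjoint_left]
      intro m hm hm'
      rw [mem_filter, mem_Ioc] at hm
      rw [mem_image] at hm'
      obtain ⟨t, ht, rfl⟩ := hm'
      rw [mem_filter, mem_Ioc] at ht
      omega
    rw [h1, card_union_of_disjoint h2, ih, card_image_of_injective _ (fun a b hab => by simpa using hab)]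
    ring

open Classical in
/-- the good classes -/
lemma good_classes : ∃ x0 : ℕ, ∀ w : ℕ, x0 ≤ w → ∀ v : ℝ, 0 < v →
    ∀ Q : ℕ → ℕ → Prop, PerB Q 3 → v ≤ Vq Q w →
      v / 4 * Wp w ≤ (((Ioc 0 (Wp w)).filter (fun j => Sf Q w j)).card : ℝ) := by
  obtain ⟨x0, H⟩ := cnt_low 3 (by norm_num)
  refine ⟨x0, ?_⟩
  intro w hw v hv Q hQ hvQ
  obtain ⟨K0, hK0⟩ := H w hw v hv
  have hW := Wp_pos w
  have h1 := hK0 (Wp w * (K0 + 1)) (by nlinarith) Q hQ hvQ
  have hper : ∀ m, Sf Q w (m + Wp w) ↔ Sf Q w m := by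
    intro m
    unfold Sf
    apply forall_congr'
    intro p
    apply imp_congr_right
    intro hp
    apply not_congr
    rw [hQ.per p (m + Wp w), hQ.per p m]
    have h2 : (m + Wp w) % p = m % p := by
      have : p ∣ Wp w := dvd_Wp (mem_pz.1 hp).2 (mem_pz.1 hp).1
      obtain ⟨t, ht⟩ := this
      rw [ht, Nat.add_mul_mod_self_left]
    rw [h2]
  rw [per_card (fun j => Sf Q w j) (Wp w) hper (K0 + 1)] at h1
  push_cast at h1
  have h3 : (0 : ℝ) < (K0 : ℝ) + 1 := by positivity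
  have h4 : ((K0 : ℝ) + 1) * (v / 4 * Wp w) ≤
      ((K0 : ℝ) + 1) * (((Ioc 0 (Wp w)).filter (fun j => Sf Q w j)).card : ℝ) := by
    linarith
  exact le_of_mul_le_mul_left h4 h3

lemma sf_coprime (Q : ℕ → ℕ → Prop) (hQ : ∀ p m : ℕ, p ∣ m → Q p m) (w N : ℕ) (h : Sf Q w N) :
    N.Coprime (Wp w) := by
  unfold Wp
  apply Nat.Coprime.prod_right
  intro p hp
  rw [Nat.coprime_comm, (mem_pz.1 hp).2.coprime_iff_not_dvd]
  intro hd
  exact h p hp (hQ p N hd)

open Classical in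
/-- the primes with good values -/
lemma jn_lowQ (b σ c : ℤ) (hσ : σ.natAbs = 1) (j0 : ℕ) : ∃ x0 : ℕ, ∀ w : ℕ, x0 ≤ w →
    ∀ v : ℝ, 0 < v → ∃ K0 : ℕ, ∀ K : ℕ, K0 ≤ K → ∀ n : ℕ, v ≤ Vq (QQ b σ c n) w →
    v / 16 * K ≤ ((Jn (fun _ => 1) (fun j => Bz b σ c (qn j0 j)) w K n).card : ℝ) := by
  obtain ⟨x0, H⟩ := good_classes
  refine ⟨x0, ?_⟩
  intro w hw v hv
  have hW := Wp_pos w
  have hWr : (0 : ℝ) < Wp w := by exact_mod_cast hW
  obtain ⟨K1, h1⟩ := fixed_mod (Wp w) (1 / (2 * Wp w)) (by positivity)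
  refine ⟨max (K1 + 1) ⌈16 * j0 / v⌉₊, ?_⟩
  intro K hK n hvn
  have hKK1 : K1 + 1 ≤ K := (le_max_left _ _).trans hK
  have hKj : 16 * (j0 : ℝ) / v ≤ K := by
    have a1 : ⌈16 * (j0 : ℝ) / v⌉₊ ≤ K := (le_max_right _ _).trans hK
    exact (Nat.le_ceil _).trans (by exact_mod_cast a1)
  obtain ⟨Gd, hGd⟩ : ∃ Gd, Gd = (Ioc 0 (Wp w)).filter (fun j => Sf (QQ b σ c n) w j) := ⟨_, rfl⟩
  have hG := H w hw v hv (QQ b σ c n) (per_QQ b σ c hσ n) hvn
  rw [← hGd] at hG
  obtain ⟨K', hK'⟩ : ∃ K', K' = K + j0 := ⟨_, rfl⟩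
  have hK'0 : (0 : ℝ) ≤ K' := Nat.cast_nonneg _
  -- each class
  have hcl : ∀ N ∈ Gd, (K' : ℝ) / (2 * Wp w) ≤ (((Pr (pn K')).filter (fun p => p ≡ N [MOD Wp w])).card : ℝ) := by
    intro N hN
    rw [hGd, mem_filter] at hN
    have hc := sf_coprime (QQ b σ c n) (fun p m h => Or.inl h) w N hN.2
    have h2 := (abs_le.1 (h1 K' (by omega) (Wp w) hW le_rfl N hc)).1
    have h3 : (K' : ℝ) / Wp w ≤ K' / (Nat.totient (Wp w) : ℝ) := by
      apply div_le_div_of_nonneg_left hK'0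
      · exact_mod_cast Nat.totient_pos.2 hW
      · exact_mod_cast Nat.totient_le _
    have e1 : (K' : ℝ) / (2 * Wp w) = K' / Wp w - 1 / (2 * Wp w) * K' := by
      field_simp
      ring
    rw [e1]
    linarith
  -- the union
  have hbi : ((Gd.biUnion (fun N => (Pr (pn K')).filter (fun p => p ≡ N [MOD Wp w]))).card : ℝ) =
      ∑ N ∈ Gd, (((Pr (pn K')).filter (fun p => p ≡ N [MOD Wp w])).card : ℝ) := by
    rw [card_biUnion]
    · push_cast
      rfl
    · intro N hN N' hN' hne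
      show Disjoint _ _
      rw [disjoint_left]
      intro p hp hp'
      replace hN := Finset.mem_coe.1 hN
      replace hN' := Finset.mem_coe.1 hN'
      rw [mem_filter] at hp hp'
      have h5 : N ≡ N' [MOD Wp w] := hp.2.symm.trans hp'.2
      rw [hGd, mem_filter, mem_Ioc] at hN hN'
      apply hne
      have h6 := hN.1
      have h7 := hN'.1
      rcases eq_or_ne N (Wp w) with hNW | hNW
      · rcases eq_or_ne N' (Wp w) with hNW' | hNW'
        · rw [hNW, hNW']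
        · exfalso
          have h8 : N' % Wp w = N' := Nat.mod_eq_of_lt (by omega)
          have h9 : N % Wp w = 0 := by rw [hNW]; exact Nat.mod_self _
          have h10 : N % Wp w = N' % Wp w := h5
          omega
      · rcases eq_or_ne N' (Wp w) with hNW' | hNW'
        · exfalso
          have h8 : N % Wp w = N := Nat.mod_eq_of_lt (by omega)
          have h9 : N' % Wp w = 0 := by rw [hNW']; exact Nat.mod_self _
          have h10 : N % Wp w = N' % Wp w := h5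
          omega
        · have h8 : N % Wp w = N := Nat.mod_eq_of_lt (by omega)
          have h9 : N' % Wp w = N' := Nat.mod_eq_of_lt (by omega)
          have h10 : N % Wp w = N' % Wp w := h5
          omega
  have hsum : v / 8 * K' ≤ ((Gd.biUnion (fun N => (Pr (pn K')).filter (fun p => p ≡ N [MOD Wp w]))).card : ℝ) := by
    rw [hbi]
    refine le_trans ?_ (sum_le_sum hcl)
    rw [sum_const, nsmul_eq_mul]
    calc v / 8 * K' = v / 4 * Wp w * (K' / (2 * Wp w)) := by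
          field_simp
          ring
      _ ≤ Gd.card * ((K' : ℝ) / (2 * Wp w)) := mul_le_mul_of_nonneg_right hG (by positivity)
  -- comparison with `Jn`
  have hsub : Gd.biUnion (fun N => (Pr (pn K')).filter (fun p => p ≡ N [MOD Wp w])) ⊆
      (Jn (fun _ => 1) (fun j => Bz b σ c (qn j0 j)) w K n).image (qn j0) ∪ (Icc 1 j0).image pn := by
    intro p hp
    rw [mem_biUnion] at hp
    obtain ⟨N, hN, hp⟩ := hp
    rw [mem_filter] at hp
    obtain ⟨hp1, hp2⟩ := hp
    rw [hGd, mem_filter] at hN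
    rw [← image_pn K' (by omega), mem_image] at hp1
    obtain ⟨i, hi, rfl⟩ := hp1
    rw [mem_Icc] at hi
    rw [mem_union]
    rcases Nat.lt_or_ge j0 i with hij | hij
    · left
      rw [mem_image]
      refine ⟨i - j0, ?_, by unfold qn; congr 1; omega⟩
      unfold Jn
      rw [mem_filter, mem_Icc]
      refine ⟨by omega, ?_⟩
      intro l hl hlw hd
      have e : qn j0 (i - j0) = pn i := by unfold qn; congr 1; omega
      simp only [e] at hd
      have hlz : l ∈ pz w := mem_pz.2 ⟨hlw, hl⟩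
      apply hN.2 l hlz
      rw [QQ_per]
      have h5 : N % l = pn i % l := (hp2.of_dvd (dvd_Wp hl hlw)).symm
      rw [h5, ← QQ_per]
      right
      exact hd
    · right
      rw [mem_image]
      exact ⟨i, mem_Icc.2 ⟨hi.1, hij⟩, rfl⟩
  have hcard := (card_le_card hsub).trans ((card_union_le _ _).trans (Nat.add_le_add card_image_le card_image_le))
  rw [Nat.card_Icc, Nat.add_sub_cancel] at hcard
  have hcardr : ((Gd.biUnion (fun N => (Pr (pn K')).filter (fun p => p ≡ N [MOD Wp w]))).card : ℝ) ≤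
      ((Jn (fun _ => 1) (fun j => Bz b σ c (qn j0 j)) w K n).card : ℝ) + j0 := by exact_mod_cast hcard
  have h10 : (j0 : ℝ) ≤ v / 16 * K := by
    rw [div_le_iff₀ hv] at hKj
    linarith
  have h11 : v / 8 * K ≤ v / 8 * K' := by
    apply mul_le_mul_of_nonneg_left _ (by positivity)
    exact_mod_cast (by omega : K ≤ K')
  linarith

lemma datP (b σ c : ℤ) (hσ : σ.natAbs = 1) (j0 : ℕ) (hj0 : b.natAbs ≤ j0) :
    Dat (fun _ => 1) (fun j => Bz b σ c (qn j0 j)) (8 * (j0 + 2) + (1 + b.natAbs + c.natAbs)) 0 := by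
  refine ⟨fun j _ => le_rfl, ?_, ?_, ?_, ?_⟩
  · intro j _
    exact Nat.one_le_pow _ _ (by omega)
  · intro j hj
    show (Bz b σ c (qn j0 j)).natAbs ≤ _
    obtain ⟨q, hq⟩ : ∃ q, q = qn j0 j := ⟨_, rfl⟩
    rw [← hq]
    have hq1 : 1 ≤ q := by rw [hq]; exact (qn_prime j0 j).one_lt.le
    have hq2 : q ≤ (j + 1) ^ (4 * (j0 + 2)) := by
      have h1 : q ≤ (j + j0 + 1) ^ 4 := by rw [hq]; exact pn_le (j + j0) (by omega)
      have h2 : j + j0 + 1 ≤ (j + 1) ^ (j0 + 2) := by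
        have h3 : j0 + 1 ≤ (j + 1) ^ (j0 + 1) := by
          have : j0 + 1 < 2 ^ (j0 + 1) := Nat.lt_two_pow_self
          exact this.le.trans (Nat.pow_le_pow_left (by omega) _)
        calc j + j0 + 1 ≤ (j + 1) * (j0 + 1) := by nlinarith
          _ ≤ (j + 1) * (j + 1) ^ (j0 + 1) := Nat.mul_le_mul_left _ h3
          _ = (j + 1) ^ (j0 + 2) := by ring
      calc q ≤ (j + j0 + 1) ^ 4 := h1
        _ ≤ ((j + 1) ^ (j0 + 2)) ^ 4 := Nat.pow_le_pow_left h2 4
        _ = (j + 1) ^ (4 * (j0 + 2)) := by rw [← pow_mul]; congr 1; ring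
    have h1 : (Bz b σ c q).natAbs ≤ (q ^ 2 + b.natAbs * q) + c.natAbs := by
      unfold Bz
      refine (Int.natAbs_add_le _ _).trans ?_
      rw [Int.natAbs_mul, hσ, one_mul]
      apply Nat.add_le_add_right
      refine (Int.natAbs_add_le _ _).trans ?_
      rw [Int.natAbs_mul, Int.natAbs_pow, Int.natAbs_natCast]
    refine h1.trans ?_
    have h2 : q ^ 2 + b.natAbs * q + c.natAbs ≤ (1 + b.natAbs + c.natAbs) * q ^ 2 := by
      have a2 : q ≤ q ^ 2 := by nlinarith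
      have a3 : 1 ≤ q ^ 2 := Nat.one_le_pow _ _ hq1
      have b2 := Nat.mul_le_mul_left b.natAbs a2
      have b3 := Nat.mul_le_mul_left c.natAbs a3
      rw [add_mul, add_mul]
      omega
    have h3 : 1 + b.natAbs + c.natAbs ≤ (j + 1) ^ (1 + b.natAbs + c.natAbs) := by
      have : 1 + b.natAbs + c.natAbs < 2 ^ (1 + b.natAbs + c.natAbs) := Nat.lt_two_pow_self
      exact this.le.trans (Nat.pow_le_pow_left (by omega) _)
    have h4 : q ^ 2 ≤ (j + 1) ^ (8 * (j0 + 2)) := by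
      calc q ^ 2 ≤ ((j + 1) ^ (4 * (j0 + 2))) ^ 2 := Nat.pow_le_pow_left hq2 2
        _ = (j + 1) ^ (8 * (j0 + 2)) := by rw [← pow_mul]; congr 1; ring
    refine h2.trans ?_
    rw [pow_add, mul_comm ((j + 1) ^ (8 * (j0 + 2)))]
    exact Nat.mul_le_mul h3 h4
  · intro j _ p hp _ hd
    exact absurd (Nat.dvd_one.1 hd) hp.one_lt.ne'
  · intro j j' h1 h2 hne
    unfold Rs
    intro h
    have e : Bz b σ c (qn j0 j') - Bz b σ c (qn j0 j) = 0 := by
      push_cast at h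
      linarith
    rw [Bz_sub] at e
    rcases mul_eq_zero.1 e with h3 | h3
    · rw [h3] at hσ
      simp at hσ
    · have a1 := qn_gt j0 j h1
      have a2 := qn_gt j0 j' h2
      rcases mul_eq_zero.1 h3 with h4 | h4
      · have h5 : qn j0 j = qn j0 j' := by omega
        exact hne (qn_inj h1 h2 h5)
      · omega

lemma excP (b σ c : ℤ) (hσ : σ.natAbs = 1) (j0 w K y : ℕ) (hw : 14 ≤ w) :
    ∑ j ∈ Icc 1 K, ∑ j' ∈ Icc 1 K, exc (fun _ => 1) (fun j => Bz b σ c (qn j0 j)) w y j j' ≤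
      ∑ j ∈ Icc 1 K, ∑ j' ∈ Icc 1 K, (if j = j' then 0 else
      tw w y ((qn j0 j : ℤ) - qn j0 j').natAbs * tw w y ((qn j0 j : ℤ) + qn j0 j' + b).natAbs - 1) := by
  apply sum_le_sum
  intro j _
  apply sum_le_sum
  intro j' _
  unfold exc
  split_ifs with hne
  · exact le_rfl
  · have e : (Rs (fun _ => 1) (fun j => Bz b σ c (qn j0 j)) j j').natAbs =
        ((qn j0 j : ℤ) - qn j0 j').natAbs * ((qn j0 j : ℤ) + qn j0 j' + b).natAbs := by
      unfold Rs
      have e1 : (((fun _ => 1 : ℕ → ℕ) j : ℕ) : ℤ) * Bz b σ c (qn j0 j') -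
          (((fun _ => 1 : ℕ → ℕ) j' : ℕ) : ℤ) * Bz b σ c (qn j0 j) =
          -(Bz b σ c (qn j0 j) - Bz b σ c (qn j0 j')) := by
        push_cast
        ring
      rw [e1, Int.natAbs_neg, Bz_sub, Int.natAbs_mul, hσ, one_mul, Int.natAbs_mul]
    rw [e]
    have a0 : tw w y 1 = 1 := tw_small w y 1 le_rfl (by omega)
    have a1 := tw_mul_le w y ((qn j0 j : ℤ) - qn j0 j').natAbs ((qn j0 j : ℤ) + qn j0 j' + b).natAbs
    rw [a0]
    linarith

open Classical in
/-- **Almost primes at the smallest prime arguments, for almost all constant terms.** -/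
theorem mainP (b σ c : ℤ) (hσ : σ.natAbs = 1) (h3 : ¬ (3 : ℤ) ∣ b) (j0 : ℕ) (hj0 : b.natAbs ≤ j0)
    (θ ε : ℝ) (k : ℕ) (hθ : 0 < θ) (hθ1 : θ ≤ 1) (hk : 1 / 8 + 25 / (12 * θ) < k) (hε : 0 < ε) :
    ∃ κ Λ : ℝ, 0 < κ ∧ 0 < Λ ∧ ∀ l : ℝ, Λ ≤ l → ∀ᶠ X : ℕ in atTop, ∀ Z L : ℕ,
      (X : ℝ) ^ θ ≤ L → Z + L ≤ X →
      (((Ioc Z (Z + L)).filter (fun n => AdmP b c n ∧
        (cnt (fun _ => 1) (fun j => Bz b σ c (qn j0 j)) k ⌊l * Real.log X⌋₊ n ((X : ℝ) ^ (θ / 10)) : ℝ) <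
          κ * l)).card : ℝ) ≤ ε * L := by
  refine mainH (datP b σ c hσ j0 hj0) (AdmP b c) ?_ θ ε k hθ hθ1 hk hε
  intro η hη
  obtain ⟨C, K1, hC, hex⟩ := exc_q b j0 hj0
  obtain ⟨x0, Hlow⟩ := jn_lowQ b σ c hσ j0
  obtain ⟨κ, hκ, hlow⟩ := vq_low 3
  obtain ⟨cz, C', hcz, hC', hV⟩ := Vz_bounds
  have ev := logpow_rpow 6 (256 * C / (η * κ ^ 2 * cz ^ 6)) (1 / 3) (by positivity) (by norm_num)
  obtain ⟨w, hw1, hw2⟩ := (ev.and (eventually_ge_atTop (x0 + 14))).exists
  have hw0 : (0 : ℝ) < w := by exact_mod_cast (by omega : 0 < w)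
  have hlw : 0 < Real.log w := Real.log_pos (by exact_mod_cast (by omega : 1 < w))
  have hVz : cz / Real.log w ≤ Vz w := (hV w (by omega)).1
  have hVz0 : 0 < Vz w := lt_of_lt_of_le (by positivity) hVz
  obtain ⟨v, hv⟩ : ∃ v : ℝ, v = κ * Vz w ^ 3 := ⟨_, rfl⟩
  have hv0 : 0 < v := by rw [hv]; positivity
  obtain ⟨K2, hJ⟩ := Hlow w (by omega) v hv0
  refine ⟨w, K1 + K2, v / 16, by omega, by positivity, ?_⟩
  intro K hK
  constructor
  · intro y
    refine (excP b σ c hσ j0 w K y (by omega)).trans ((hex K (by omega) w y (by omega)).trans ?_)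
    have hu1 := cu_one w (by omega)
    have hu : 0 < cu w := by linarith
    have hcu : (w : ℝ) ^ (1 / 3 : ℝ) = cu w := rfl
    rw [hcu] at hw1
    have a1 : (cz / Real.log w) ^ 3 ≤ Vz w ^ 3 := pow_le_pow_left₀ (by positivity) hVz 3
    have a2 : κ * (cz / Real.log w) ^ 3 ≤ v := by
      rw [hv]
      exact mul_le_mul_of_nonneg_left a1 hκ.le
    have a3 : (κ * (cz / Real.log w) ^ 3) ^ 2 ≤ v ^ 2 := pow_le_pow_left₀ (by positivity) a2 2
    have a4 : (κ * (cz / Real.log w) ^ 3) ^ 2 = κ ^ 2 * cz ^ 6 / Real.log w ^ 6 := by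
      rw [mul_pow, ← pow_mul, div_pow]
      ring
    rw [a4] at a3
    have a5 : C / cu w ≤ η * (v / 16) ^ 2 := by
      have b1 : 256 * C * Real.log w ^ 6 ≤ cu w * (η * κ ^ 2 * cz ^ 6) := by
        rw [div_mul_eq_mul_div, div_le_iff₀ (by positivity)] at hw1
        exact hw1
      have b2 : 256 * C / cu w ≤ η * (κ ^ 2 * cz ^ 6 / Real.log w ^ 6) := by
        rw [div_le_iff₀ hu]
        have e : η * (κ ^ 2 * cz ^ 6 / Real.log w ^ 6) * cu w =
          cu w * (η * κ ^ 2 * cz ^ 6) / Real.log w ^ 6 := by ring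
        rw [e, le_div_iff₀ (by positivity)]
        exact b1
      have b3 := b2.trans (mul_le_mul_of_nonneg_left a3 hη.le)
      have b5 : 256 * C / cu w = 256 * (C / cu w) := by ring
      rw [b5] at b3
      nlinarith
    calc C * (K : ℝ) ^ 2 / cu w = C / cu w * (K : ℝ) ^ 2 := by ring
      _ ≤ η * (v / 16) ^ 2 * (K : ℝ) ^ 2 := mul_le_mul_of_nonneg_right a5 (sq_nonneg _)
      _ = η * (v / 16 * K) ^ 2 := by ring
  · intro n hn
    apply hJ K (by omega) n
    rw [hv]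
    exact hlow _ (per_QQ b σ c hσ n) (fun p hp => nu_lt b σ c hσ h3 n hn p hp) w

end Pool.Agent.L5helper16.PQ
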